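import Mathlib

/-!
Rows with few pairwise distances: the number of rows is bounded by a power of the rank.
-/

set_option autoImplicit false

namespace Pool.Agent.R111.FD

open Finset Module

open scoped Pointwise in
theorem card_le_of_det {R : Type*} [Fintype R] [DecidableEq R] (U : Submodule ℝ (R → ℝ)) (s : ℕ)
    (f : R → R → ℝ) (hf : ∀ x, f x ∈ U ^ s) (hdet : (Matrix.of f).det ≠ 0) :
    Fintype.card R ≤ (finrank ℝ U) ^ s := by
  classical
  let B := Module.finBasis ℝ U
  let T : Finset (R → ℝ) := univ.image fun i => (B i : R → ℝ)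
  have hT : Submodule.span ℝ (T : Set (R → ℝ)) = U := by
    have h1 : (T : Set (R → ℝ)) = U.subtype '' (Set.range B) := by
      rw [← Set.range_comp]
      simp only [T, Finset.coe_image, Finset.coe_univ, Set.image_univ]
      rfl
    rw [h1, ← Submodule.map_span, B.span_eq, Submodule.map_top, Submodule.range_subtype]
  have hTc : T.card ≤ finrank ℝ U := by
    refine Finset.card_image_le.trans ?_
    rw [Finset.card_univ, Fintype.card_fin]
  have hUs : U ^ s = Submodule.span ℝ ((T ^ s : Finset (R → ℝ)) : Set (R → ℝ)) := by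
    rw [Finset.coe_pow, ← Submodule.span_pow, hT]
  have hfin : finrank ℝ (U ^ s : Submodule ℝ (R → ℝ)) ≤ (finrank ℝ U) ^ s := by
    rw [hUs]
    refine (finrank_span_finset_le_card _).trans ?_
    exact Finset.card_pow_le.trans (Nat.pow_le_pow_left hTc _)
  have hli : LinearIndependent ℝ (fun x => (⟨f x, hf x⟩ : (U ^ s : Submodule ℝ (R → ℝ)))) := by
    refine LinearIndependent.of_comp (U ^ s : Submodule ℝ (R → ℝ)).subtype ?_
    exact Matrix.linearIndependent_rows_of_det_ne_zero hdet
  exact hli.fintype_card_le_finrank.trans hfin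

section

variable {X Y : Type*} [Fintype Y]

/-- 0/1 -/
def b01 (v : Bool) : ℝ := if v then 1 else 0

/-- the weighted distance of rows -/
noncomputable def dist (F : X → Y → Bool) (μ : Y → ℝ) (x x' : X) : ℝ :=
  ∑ y, if F x y = F x' y then 0 else μ y

theorem dist_eq (F : X → Y → Bool) (μ : Y → ℝ) (x x' : X) :
    dist F μ x x' = ∑ y, μ y * b01 (F x y) + ∑ y, μ y * (1 - 2 * b01 (F x y)) * b01 (F x' y) := by
  unfold dist
  rw [← sum_add_distrib]
  refine sum_congr rfl fun y _ => ?_
  cases F x y <;> cases F x' y <;> simp [b01] <;> ring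

theorem dist_self (F : X → Y → Bool) (μ : Y → ℝ) (x : X) : dist F μ x x = 0 := by
  simp [dist]

/-- the space of affine functions of the columns -/
noncomputable def aff {R : Type*} (F : R → Y → Bool) : Submodule ℝ (R → ℝ) :=
  Submodule.span ℝ {1} ⊔ Submodule.span ℝ (Set.range fun y => fun x => b01 (F x y))

theorem finrank_aff {R : Type*} [Fintype R] (F : R → Y → Bool) :
    finrank ℝ (aff F) ≤ (Matrix.of fun x y => b01 (F x y)).rank + 1 := by
  classical
  unfold aff
  refine (Submodule.finrank_add_le_finrank_add_finrank _ _).trans ?_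
  have h1 : finrank ℝ (Submodule.span ℝ {(1 : R → ℝ)}) ≤ 1 := by
    have := finrank_span_finset_le_card (R := ℝ) ({(1 : R → ℝ)} : Finset (R → ℝ))
    rw [Finset.coe_singleton, Finset.card_singleton] at this
    exact this
  have h2 : finrank ℝ (Submodule.span ℝ (Set.range fun y => fun x => b01 (F x y))) =
      (Matrix.of fun x y => b01 (F x y)).rank := by
    rw [Matrix.rank_eq_finrank_span_cols]
    rfl
  omega

theorem dist_mem {R : Type*} [Fintype R] (F : R → Y → Bool) (μ : Y → ℝ) (x : R) :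
    dist F μ x ∈ aff F := by
  have : dist F μ x = (∑ y, μ y * b01 (F x y)) • (1 : R → ℝ) +
      ∑ y, (μ y * (1 - 2 * b01 (F x y))) • (fun x' => b01 (F x' y)) := by
    funext x'
    rw [dist_eq]
    simp
  rw [this]
  refine Submodule.add_mem _ (Submodule.smul_mem _ _ ?_)
    (Submodule.sum_mem _ fun y _ => Submodule.smul_mem _ _ ?_)
  · exact Submodule.mem_sup_left (Submodule.subset_span rfl)
  · exact Submodule.mem_sup_right (Submodule.subset_span ⟨y, rfl⟩)

theorem prod_mem_pow {R : Type*} (U : Submodule ℝ (R → ℝ)) (h1 : (1 : R → ℝ) ∈ U) (u : R → ℝ)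
    (hu : u ∈ U) (S : Finset ℝ) : (∏ δ ∈ S, (u - δ • (1 : R → ℝ))) ∈ U ^ S.card := by
  classical
  induction S using Finset.induction_on with
  | empty =>
    rw [prod_empty, card_empty, pow_zero]
    exact Submodule.one_le.1 (le_refl (1 : Submodule ℝ (R → ℝ)))
  | insert a S ha ih =>
    rw [Finset.prod_insert ha, Finset.card_insert_of_notMem ha, pow_succ']
    exact Submodule.mul_mem_mul (Submodule.sub_mem _ hu (Submodule.smul_mem _ _ h1)) ih

/-- real distances -/
theorem card_le_real {R : Type*} [Fintype R] (F : R → Y → Bool) (μ : Y → ℝ) (S : Finset ℝ)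
    (h0 : (0 : ℝ) ∉ S) (hS : ∀ x x', x ≠ x' → dist F μ x x' ∈ S) :
    Fintype.card R ≤ ((Matrix.of fun x y => b01 (F x y)).rank + 1) ^ S.card := by
  classical
  have h1 : (1 : R → ℝ) ∈ aff F := Submodule.mem_sup_left (Submodule.subset_span rfl)
  refine (card_le_of_det (aff F) S.card (fun x => ∏ δ ∈ S, (dist F μ x - δ • (1 : R → ℝ)))
    (fun x => prod_mem_pow _ h1 _ (dist_mem F μ x) S) ?_).trans
    (Nat.pow_le_pow_left (finrank_aff F) _)
  have : (Matrix.of fun x => ∏ δ ∈ S, (dist F μ x - δ • (1 : R → ℝ))) =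
      Matrix.diagonal fun _ => ∏ δ ∈ S, (-δ) := by
    ext x x'
    rw [Matrix.of_apply, Finset.prod_apply, Matrix.diagonal_apply]
    split_ifs with h
    · subst h
      refine prod_congr rfl fun δ _ => ?_
      simp [dist_self]
    · refine Finset.prod_eq_zero (hS x x' h) ?_
      simp
  rw [this, Matrix.det_diagonal]
  refine Finset.prod_ne_zero_iff.2 fun _ _ => Finset.prod_ne_zero_iff.2 fun δ hδ => ?_
  rintro h
  apply h0
  rw [← neg_eq_zero.1 h]
  exact hδ

/-- distances modulo a prime -/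
theorem card_le_mod {R : Type*} [Fintype R] (F : R → Y → Bool) (μ : Y → ℤ) (p : ℕ) [Fact p.Prime]
    (S : Finset ℤ) (h0 : ∀ δ ∈ S, ¬ (p : ℤ) ∣ δ)
    (hS : ∀ x x', x ≠ x' → ∃ δ ∈ S, (p : ℤ) ∣ (∑ y, if F x y = F x' y then 0 else μ y) - δ) :
    Fintype.card R ≤ ((Matrix.of fun x y => b01 (F x y)).rank + 1) ^ S.card := by
  classical
  have h1 : (1 : R → ℝ) ∈ aff F := Submodule.mem_sup_left (Submodule.subset_span rfl)
  set S' : Finset ℝ := S.image (fun δ : ℤ => (δ : ℝ)) with hS'
  have hcard : S'.card = S.card := Finset.card_image_of_injective _ Int.cast_injective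
  rw [← hcard]
  refine (card_le_of_det (aff F) S'.card
    (fun x => ∏ δ ∈ S', (dist F (fun y => (μ y : ℝ)) x - δ • (1 : R → ℝ)))
    (fun x => prod_mem_pow _ h1 _ (dist_mem F _ x) S') ?_).trans
    (Nat.pow_le_pow_left (finrank_aff F) _)
  set N : Matrix R R ℤ := Matrix.of fun x x' =>
    ∏ δ ∈ S, ((∑ y, if F x y = F x' y then 0 else μ y) - δ) with hN
  have e : (Matrix.of fun x => ∏ δ ∈ S', (dist F (fun y => (μ y : ℝ)) x - δ • (1 : R → ℝ))) =
      (Int.castRingHom ℝ).mapMatrix N := by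
    ext x x'
    rw [Matrix.of_apply, Finset.prod_apply, hS',
      Finset.prod_image (fun _ _ _ _ h => Int.cast_injective h)]
    simp [hN, dist, Int.cast_prod]
  rw [e, ← RingHom.map_det]
  intro hdet
  have hdet' : N.det = 0 := by
    have : ((N.det : ℤ) : ℝ) = 0 := hdet
    exact_mod_cast this
  have h2 : ((Int.castRingHom (ZMod p)).mapMatrix N).det = 0 := by
    rw [← RingHom.map_det, hdet', map_zero]
  have h3 : (Int.castRingHom (ZMod p)).mapMatrix N =
      Matrix.diagonal fun _ => ∏ δ ∈ S, (-(δ : ZMod p)) := by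
    ext x x'
    rw [RingHom.mapMatrix_apply, Matrix.map_apply, Matrix.diagonal_apply]
    simp only [hN, Matrix.of_apply, map_prod, map_sub, Int.coe_castRingHom]
    split_ifs with h
    · subst h
      refine prod_congr rfl fun δ _ => ?_
      simp
    · obtain ⟨δ, hδ, hd⟩ := hS x x' h
      refine Finset.prod_eq_zero hδ ?_
      have := (ZMod.intCast_zmod_eq_zero_iff_dvd _ p).2 hd
      push_cast at this ⊢
      exact this
  rw [h3, Matrix.det_diagonal] at h2
  refine absurd h2 (Finset.prod_ne_zero_iff.2 fun _ _ => Finset.prod_ne_zero_iff.2 fun δ hδ => ?_)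
  intro h
  apply h0 δ hδ
  rw [← ZMod.intCast_zmod_eq_zero_iff_dvd]
  exact neg_eq_zero.1 h

/-- the rows of the elements of a class -/
theorem card_rows_class [Fintype X] (F : X → Y → Bool) (P : Finset X) (N : ℕ)
    (h : ∀ (R : Type) [Fintype R] (g : R → X), (∀ ρ, g ρ ∈ P) →
      (∀ ρ ρ', F (g ρ) = F (g ρ') → ρ = ρ') → Fintype.card R ≤ N) :
    (P.image F).card ≤ N := by
  classical
  obtain ⟨n, hn⟩ : ∃ n, n = (P.image F).card := ⟨_, rfl⟩
  let e : Fin n ≃ (P.image F) := (finCongr hn).trans (P.image F).equivFin.symm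
  have hg : ∀ ρ : Fin n, ∃ x ∈ P, F x = (e ρ).1 := fun ρ => by
    have := (e ρ).2
    rw [Finset.mem_image] at this
    exact this
  choose g hgP hgF using hg
  have := h (Fin n) g hgP (fun ρ ρ' hρ => by
    rw [hgF, hgF] at hρ
    exact e.injective (Subtype.ext hρ))
  rwa [Fintype.card_fin, hn] at this

theorem rank_comp_le {R : Type*} [Fintype X] [Fintype R] (F : X → Y → Bool) (g : R → X) :
    (Matrix.of fun x y => b01 (F (g x) y)).rank ≤ (Matrix.of fun x y => b01 (F x y)).rank :=
  Matrix.rank_submatrix_le (Matrix.of fun x y => b01 (F x y)) g id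

theorem card_rows_real [Fintype X] (F : X → Y → Bool) (P : Finset X) (μ : Y → ℝ) (S : Finset ℝ)
    (h0 : (0 : ℝ) ∉ S) (hS : ∀ x ∈ P, ∀ x' ∈ P, F x ≠ F x' → dist F μ x x' ∈ S) :
    (P.image F).card ≤ ((Matrix.of fun x y => b01 (F x y)).rank + 1) ^ S.card := by
  refine card_rows_class F P _ fun R _ g hg hinj => ?_
  refine (card_le_real (fun ρ => F (g ρ)) μ S h0 (fun ρ ρ' hne => ?_)).trans
    (Nat.pow_le_pow_left (Nat.add_le_add_right (rank_comp_le F g) 1) _)
  exact hS _ (hg ρ) _ (hg ρ') (fun h => hne (hinj _ _ h))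

theorem card_rows_mod [Fintype X] (F : X → Y → Bool) (P : Finset X) (μ : Y → ℤ) (p : ℕ)
    [Fact p.Prime] (S : Finset ℤ) (h0 : ∀ δ ∈ S, ¬ (p : ℤ) ∣ δ)
    (hS : ∀ x ∈ P, ∀ x' ∈ P, F x ≠ F x' →
      ∃ δ ∈ S, (p : ℤ) ∣ (∑ y, if F x y = F x' y then 0 else μ y) - δ) :
    (P.image F).card ≤ ((Matrix.of fun x y => b01 (F x y)).rank + 1) ^ S.card := by
  refine card_rows_class F P _ fun R _ g hg hinj => ?_
  refine (card_le_mod (fun ρ => F (g ρ)) μ p S h0 (fun ρ ρ' hne => ?_)).trans
    (Nat.pow_le_pow_left (Nat.add_le_add_right (rank_comp_le F g) 1) _)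
  exact hS _ (hg ρ) _ (hg ρ') (fun h => hne (hinj _ _ h))

theorem card_rows_le [Fintype X] (F : X → Y → Bool) {t : ℕ} (c : X → Fin t) (N : ℕ)
    (h : ∀ j, ((univ.filter fun x => c x = j).image F).card ≤ N) :
    (univ.image F).card ≤ t * N := by
  classical
  have : univ.image F = univ.biUnion fun j => (univ.filter fun x => c x = j).image F := by
    ext ρ
    simp
  rw [this]
  refine Finset.card_biUnion_le.trans ?_
  calc _ ≤ ∑ _j : Fin t, N := Finset.sum_le_sum fun j _ => h j
    _ = t * N := by simp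

/-- suborbits -/
theorem card_rows_orbit {Γ : Type*} [Group Γ] [MulAction Γ X] [MulAction Γ Y] [Fintype X]
    (F : X → Y → Bool) (hF : ∀ (g : Γ) x y, F (g • x) (g • y) = F x y) (x₀ : X) (s : ℕ)
    (hs : Nat.card (MulAction.orbitRel.Quotient (MulAction.stabilizer Γ x₀)
      (MulAction.orbit Γ x₀)) ≤ s + 1) (P : Finset X) (hP : ∀ x ∈ P, x ∈ MulAction.orbit Γ x₀) :
    (P.image F).card ≤ ((Matrix.of fun x y => b01 (F x y)).rank + 1) ^ s := by
  classical
  have hinv : ∀ (g : Γ) x x', dist F (fun _ => 1) (g • x) (g • x') = dist F (fun _ => 1) x x' := by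
    intro g x x'
    unfold dist
    rw [← Equiv.sum_comp (MulAction.toPerm g)
      (fun y => if F (g • x) y = F (g • x') y then (0 : ℝ) else 1)]
    refine sum_congr rfl fun y _ => ?_
    simp only [MulAction.toPerm_apply, hF]
  have hpos : ∀ x x', F x ≠ F x' → dist F (fun _ => 1) x x' ≠ 0 := by
    intro x x' hne h0
    apply hne
    funext y
    unfold dist at h0
    rw [Finset.sum_eq_zero_iff_of_nonneg (fun y _ => by split_ifs <;> norm_num)] at h0
    by_contra h
    have := h0 y (mem_univ y)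
    rw [if_neg h] at this
    norm_num at this
  -- the distances from `x₀`
  let D : MulAction.orbitRel.Quotient (MulAction.stabilizer Γ x₀) (MulAction.orbit Γ x₀) → ℝ :=
    Quotient.lift (fun z : MulAction.orbit Γ x₀ => dist F (fun _ => 1) x₀ z.1) (by
      rintro a b ⟨g, hg⟩
      have h1 : (g : Γ) • x₀ = x₀ := g.2
      have h2 : (g : Γ) • (b : X) = a := congrArg Subtype.val hg
      show dist F (fun _ => 1) x₀ a.1 = dist F (fun _ => 1) x₀ b.1
      have h3 := hinv (g : Γ) x₀ b.1
      rw [h1, h2] at h3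
      exact h3)
  have hfinQ : Finite (MulAction.orbitRel.Quotient (MulAction.stabilizer Γ x₀)
      (MulAction.orbit Γ x₀)) := Quotient.finite _
  let _ : Fintype (MulAction.orbitRel.Quotient (MulAction.stabilizer Γ x₀)
      (MulAction.orbit Γ x₀)) := Fintype.ofFinite _
  set S : Finset ℝ := (univ.image D).erase 0 with hSdef
  have hS0 : (0 : ℝ) ∈ univ.image D := by
    refine Finset.mem_image.2 ⟨Quotient.mk _ ⟨x₀, MulAction.mem_orbit_self x₀⟩, mem_univ _, ?_⟩
    show dist F (fun _ => 1) x₀ x₀ = 0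
    exact dist_self F _ x₀
  have hScard : S.card ≤ s := by
    rw [hSdef, Finset.card_erase_of_mem hS0]
    have h1 : (univ.image D).card ≤ s + 1 := by
      refine Finset.card_image_le.trans ?_
      rw [Finset.card_univ, ← Nat.card_eq_fintype_card]
      exact hs
    omega
  refine (card_rows_real F P (fun _ => 1) S (Finset.notMem_erase _ _) (fun x hx x' hx' hne => ?_)).trans
    (Nat.pow_le_pow_right (Nat.succ_pos _) hScard)
  rw [hSdef, Finset.mem_erase]
  refine ⟨hpos x x' hne, ?_⟩
  obtain ⟨g, hg⟩ := hP x hx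
  have hg' : g • x₀ = x := hg
  have hx'' : g⁻¹ • x' ∈ MulAction.orbit Γ x₀ := by
    obtain ⟨k, hk⟩ := hP x' hx'
    exact ⟨g⁻¹ * k, by
      show (g⁻¹ * k) • x₀ = g⁻¹ • x'
      rw [mul_smul]
      exact congrArg _ hk⟩
  refine Finset.mem_image.2 ⟨Quotient.mk _ ⟨g⁻¹ • x', hx''⟩, mem_univ _, ?_⟩
  show dist F (fun _ => 1) x₀ (g⁻¹ • x') = dist F (fun _ => 1) x x'
  rw [← hinv g, smul_inv_smul, hg']

end

end Pool.Agent.R111.FD
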